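import Pool.Agent.Helper71.P4.St

/-!
# MP_3dd6d4_an, project P4, module KER: elementary integrals
-/

set_option autoImplicit false

open MeasureTheory Set Filter Topology
open scoped ENNReal

noncomputable section

namespace Helper71.P4

open Helper69.CR

private lemma ftc_KER {g g' : ℝ → ℝ} {a b : ℝ} (hab : a ≤ b) (hc : ContinuousOn g (Icc a b))
    (hd : ∀ x ∈ Ioo a b, HasDerivAt g (g' x) x) (hp : ∀ x ∈ Ioo a b, 0 ≤ g' x) :
    ∫⁻ t in Ioo a b, ENNReal.ofReal (g' t) = ENNReal.ofReal (g b - g a) := by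
  have hi : IntegrableOn g' (Ioc a b) := intervalIntegral.integrableOn_deriv_of_nonneg hc hd hp
  have hio : IntegrableOn g' (Ioo a b) := hi.mono_set Ioo_subset_Ioc_self
  have hnn : 0 ≤ᵐ[volume.restrict (Ioo a b)] g' := by
    filter_upwards [ae_restrict_mem measurableSet_Ioo] with x hx using hp x hx
  rw [← ofReal_integral_eq_lintegral_ofReal hio hnn]
  congr 1
  rw [← integral_Ioc_eq_integral_Ioo, ← intervalIntegral.integral_of_le hab]
  exact intervalIntegral.integral_eq_sub_of_hasDerivAt_of_le hab hc hd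
    ((intervalIntegrable_iff_integrableOn_Ioc_of_le hab).2 hi)

private lemma congr_KER {f g : ℝ → ℝ} {a b : ℝ} (h : ∀ x ∈ Ioo a b, f x = g x) :
    ∫⁻ t in Ioo a b, ENNReal.ofReal (f t) = ∫⁻ t in Ioo a b, ENNReal.ofReal (g t) := by
  refine setLIntegral_congr_fun measurableSet_Ioo ?_
  intro x hx
  simp only [h x hx]

/-- part (1). -/
private lemma k1_KER (s : ℝ) (hs : 0 < s) (hs1 : s < 1) :
    ∫⁻ t in Ioo s 1, ENNReal.ofReal (t ^ (-(5 / 4) : ℝ) * (1 - t) ^ (-(3 / 4) : ℝ)) =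
      ENNReal.ofReal (4 * ((1 - s) / s) ^ ((1 / 4) : ℝ)) := by
  have h := ftc_KER (g := fun t => -4 * ((1 - t) / t) ^ ((1 / 4) : ℝ))
    (g' := fun t => t ^ (-(5 / 4) : ℝ) * (1 - t) ^ (-(3 / 4) : ℝ)) hs1.le ?_ ?_ ?_
  · rw [h]
    congr 1
    have h0 : ((0 : ℝ)) ^ ((1 / 4) : ℝ) = 0 := Real.zero_rpow (by norm_num)
    simp only [sub_self, zero_div, h0]
    ring
  · refine ContinuousOn.mul continuousOn_const ?_
    refine ContinuousOn.rpow_const ?_ ?_
    · refine ContinuousOn.div (by fun_prop) (by fun_prop) ?_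
      intro x hx
      exact (lt_of_lt_of_le hs hx.1).ne'
    · intro x hx
      right; norm_num
  · intro x hx
    have hx0 : 0 < x := hs.trans hx.1
    have hx1 : 0 < 1 - x := by linarith [hx.2]
    have hq : 0 < (1 - x) / x := div_pos hx1 hx0
    have h1 : HasDerivAt (fun t : ℝ => (1 - t) / t) (((-1) * x - (1 - x) * 1) / x ^ 2) x := by
      have := ((hasDerivAt_id x).const_sub 1).div (hasDerivAt_id x) hx0.ne'
      exact this
    have h2 := (h1.rpow_const (p := ((1 / 4) : ℝ)) (Or.inl hq.ne')).const_mul (-4)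
    refine h2.congr_deriv ?_
    have e1 : ((1 - x) / x) ^ ((1 / 4 : ℝ) - 1) = (1 - x) ^ (-(3 / 4) : ℝ) * x ^ ((3 / 4) : ℝ) := by
      rw [Real.div_rpow hx1.le hx0.le]
      rw [show ((1 / 4 : ℝ) - 1) = -(3 / 4) by norm_num]
      rw [Real.rpow_neg hx0.le (3 / 4)]
      rw [div_inv_eq_mul]
    have e2 : x ^ (-(5 / 4) : ℝ) = x ^ ((3 / 4) : ℝ) / x ^ 2 := by
      rw [show (-(5 / 4) : ℝ) = 3 / 4 - 2 by norm_num, Real.rpow_sub hx0]
      norm_num
    rw [e1, e2]
    field_simp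
    ring
  · intro x hx
    have hx0 : 0 < x := hs.trans hx.1
    have hx1 : 0 < 1 - x := by linarith [hx.2]
    positivity

/-- part (2). -/
private lemma k2_KER :
    ∫⁻ t in Ioo (0 : ℝ) 1, ENNReal.ofReal ((1 - t) ^ (-(3 / 4) : ℝ)) = 4 := by
  have h := ftc_KER (g := fun t => -4 * (1 - t) ^ ((1 / 4) : ℝ))
    (g' := fun t => (1 - t) ^ (-(3 / 4) : ℝ)) (a := 0) (b := 1) (by norm_num) ?_ ?_ ?_
  · rw [h]
    have h0 : ((0 : ℝ)) ^ ((1 / 4) : ℝ) = 0 := Real.zero_rpow (by norm_num)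
    simp only [sub_self, h0, sub_zero, Real.one_rpow]
    norm_num
  · refine ContinuousOn.mul continuousOn_const ?_
    refine ContinuousOn.rpow_const (by fun_prop) ?_
    intro x hx
    right; norm_num
  · intro x hx
    have hx1 : 0 < 1 - x := by linarith [hx.2]
    have h1 : HasDerivAt (fun t : ℝ => 1 - t) (-1) x := (hasDerivAt_id x).const_sub 1
    have h2 := (h1.rpow_const (p := ((1 / 4) : ℝ)) (Or.inl hx1.ne')).const_mul (-4)
    refine h2.congr_deriv ?_
    rw [show ((1 / 4 : ℝ) - 1) = -(3 / 4) by norm_num]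
    ring
  · intro x hx
    have hx1 : 0 < 1 - x := by linarith [hx.2]
    positivity

/-- derivative of the arcsine. -/
private lemma dar_KER (x : ℝ) (hx0 : 0 < x) (hx1 : 0 < 1 - x) :
    HasDerivAt (fun t : ℝ => Real.arcsin (2 * t - 1)) ((x * (1 - x)) ^ (-(1 / 2) : ℝ)) x := by
  have h1 : HasDerivAt (fun t : ℝ => 2 * t - 1) 2 x := by
    simpa using ((hasDerivAt_id x).const_mul 2).sub_const 1
  have h2 := (Real.hasDerivAt_arcsin (x := 2 * x - 1) (by linarith) (by linarith)).comp x h1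
  refine h2.congr_deriv ?_
  have hq : 0 < x * (1 - x) := mul_pos hx0 hx1
  have e1 : 1 - (2 * x - 1) ^ 2 = 2 ^ 2 * (x * (1 - x)) := by ring
  rw [e1, Real.sqrt_mul (by norm_num), Real.sqrt_sq (by norm_num), Real.rpow_neg hq.le,
    ← Real.sqrt_eq_rpow]
  have : 0 < Real.sqrt (x * (1 - x)) := Real.sqrt_pos.2 hq
  field_simp

/-- part (3). -/
private lemma k3_KER :
    ∫⁻ t in Ioo (0 : ℝ) 1, ENNReal.ofReal ((t * (1 - t)) ^ (-(1 / 2) : ℝ)) =
      ENNReal.ofReal Real.pi := by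
  have h := ftc_KER (g := fun t : ℝ => Real.arcsin (2 * t - 1))
    (g' := fun t : ℝ => (t * (1 - t)) ^ (-(1 / 2) : ℝ)) (a := 0) (b := 1) (by norm_num) ?_ ?_ ?_
  · rw [h]
    congr 1
    have e1 : (2 * (1 : ℝ) - 1) = 1 := by norm_num
    have e2 : (2 * (0 : ℝ) - 1) = -1 := by norm_num
    rw [e1, e2, Real.arcsin_one, Real.arcsin_neg_one]
    ring
  · exact (Real.continuous_arcsin.comp (by fun_prop)).continuousOn
  · intro x hx
    exact dar_KER x hx.1 (by linarith [hx.2])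
  · intro x hx
    have hx0 : 0 < x := hx.1
    have hx1 : 0 < 1 - x := by linarith [hx.2]
    positivity

private lemma sq_KER (x : ℝ) (hx : 0 < x) : x ^ (-(1 / 2) : ℝ) = 1 / Real.sqrt x := by
  rw [Real.rpow_neg hx.le, ← Real.sqrt_eq_rpow, one_div]

/-- part (4). -/
private lemma k4_KER :
    ∫⁻ t in Ioo (0 : ℝ) 1, ENNReal.ofReal (t ^ (-(1 / 2) : ℝ) * (1 - t) ^ (-(3 / 4) : ℝ)) ≤
      ENNReal.ofReal (3 * Real.sqrt Real.pi) := by
  set c : ℝ := Real.sqrt Real.pi / 2 with hc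
  have hpi : 0 < Real.sqrt Real.pi := Real.sqrt_pos.2 Real.pi_pos
  have hc0 : 0 < c := by positivity
  -- the majorant
  set G : ℝ → ℝ := fun t => 3 * c * Real.sqrt t +
    3 / (2 * c) * (Real.sqrt t * Real.sqrt (1 - t) + Real.arcsin (2 * t - 1) / 2) -
      4 * (Real.sqrt t * (1 - t) ^ ((1 / 4) : ℝ)) with hG
  set G' : ℝ → ℝ := fun t => 3 * c * (1 / (2 * Real.sqrt t)) +
    3 / (2 * c) * ((1 / (2 * Real.sqrt t) * Real.sqrt (1 - t) +
      Real.sqrt t * (-1 / (2 * Real.sqrt (1 - t)))) + (t * (1 - t)) ^ (-(1 / 2) : ℝ) / 2) -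
      4 * (1 / (2 * Real.sqrt t) * (1 - t) ^ ((1 / 4) : ℝ) +
        Real.sqrt t * (-(1 / 4) * (1 - t) ^ (-(3 / 4) : ℝ))) with hG'
  have hder : ∀ x ∈ Ioo (0 : ℝ) 1, HasDerivAt G (G' x) x := by
    intro x hx
    have hx0 : 0 < x := hx.1
    have hx1 : 0 < 1 - x := by linarith [hx.2]
    have hs : HasDerivAt (fun t : ℝ => Real.sqrt t) (1 / (2 * Real.sqrt x)) x :=
      Real.hasDerivAt_sqrt hx0.ne'
    have h1 : HasDerivAt (fun t : ℝ => 1 - t) (-1) x := (hasDerivAt_id x).const_sub 1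
    have hs1 : HasDerivAt (fun t : ℝ => Real.sqrt (1 - t)) (-1 / (2 * Real.sqrt (1 - x))) x :=
      h1.sqrt hx1.ne'
    have hr : HasDerivAt (fun t : ℝ => (1 - t) ^ ((1 / 4) : ℝ))
        (-(1 / 4) * (1 - x) ^ (-(3 / 4) : ℝ)) x := by
      have := h1.rpow_const (p := ((1 / 4) : ℝ)) (Or.inl hx1.ne')
      refine this.congr_deriv ?_
      rw [show ((1 / 4 : ℝ) - 1) = -(3 / 4) by norm_num]
      ring
    have ha := dar_KER x hx0 hx1
    exact ((hs.const_mul (3 * c)).add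
      (((hs.mul hs1).add (ha.div_const 2)).const_mul (3 / (2 * c)))).sub
      ((hs.mul hr).const_mul 4)
  have hle : ∀ x ∈ Ioo (0 : ℝ) 1,
      x ^ (-(1 / 2) : ℝ) * (1 - x) ^ (-(3 / 4) : ℝ) ≤ G' x := by
    intro x hx
    have hx0 : 0 < x := hx.1
    have hx1 : 0 < 1 - x := by linarith [hx.2]
    have hsx : 0 < Real.sqrt x := Real.sqrt_pos.2 hx0
    -- y = (1-x)^(1/4)
    set y : ℝ := (1 - x) ^ ((1 / 4) : ℝ) with hy
    have hy0 : 0 < y := Real.rpow_pos_of_pos hx1 _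
    have hy4 : y ^ 4 = 1 - x := by
      rw [hy, ← Real.rpow_natCast, ← Real.rpow_mul hx1.le]
      norm_num
    have hy2 : Real.sqrt (1 - x) = y ^ 2 := by
      rw [← hy4, show y ^ 4 = (y ^ 2) ^ 2 by ring, Real.sqrt_sq (by positivity)]
    have hy3 : (1 - x) ^ (-(3 / 4) : ℝ) = 1 / y ^ 3 := by
      rw [Real.rpow_neg hx1.le, hy, ← Real.rpow_natCast, ← Real.rpow_mul hx1.le]
      norm_num
    have hm : (x * (1 - x)) ^ (-(1 / 2) : ℝ) = 1 / (Real.sqrt x * y ^ 2) := by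
      rw [sq_KER _ (mul_pos hx0 hx1), Real.sqrt_mul hx0.le, hy2]
    have hxs : Real.sqrt x ^ 2 = 1 - y ^ 4 := by
      rw [Real.sq_sqrt hx0.le, hy4]; ring
    have key : G' x - x ^ (-(1 / 2) : ℝ) * (1 - x) ^ (-(3 / 4) : ℝ) =
        3 / (2 * c * Real.sqrt x) * (c - y) ^ 2 := by
      rw [sq_KER x hx0]
      simp only [hG', hy2, hy3, hm, ← hy]
      set u : ℝ := Real.sqrt x with hu
      have hu2 : u ^ 2 = 1 - y ^ 4 := hxs
      field_simp
      ring_nf
      have hu4 : u ^ 2 = 1 - y ^ 4 := hu2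
      simp only [hu4]
      ring
    have : 0 ≤ 3 / (2 * c * Real.sqrt x) * (c - y) ^ 2 := by positivity
    linarith
  have hcont : ContinuousOn G (Icc 0 1) := by
    have c1 : Continuous (fun t : ℝ => (1 - t) ^ ((1 / 4) : ℝ)) := by
      refine Continuous.rpow_const (by fun_prop) ?_
      intro x; right; norm_num
    have c2 : Continuous (fun t : ℝ => Real.arcsin (2 * t - 1)) :=
      Real.continuous_arcsin.comp (by fun_prop)
    have c3 : Continuous (fun t : ℝ => Real.sqrt (1 - t)) :=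
      Real.continuous_sqrt.comp (by fun_prop)
    have c4 := Real.continuous_sqrt
    exact (((continuous_const.mul c4).add
      (continuous_const.mul ((c4.mul c3).add (c2.div_const 2)))).sub
      (continuous_const.mul (c4.mul c1))).continuousOn
  have hnn : ∀ x ∈ Ioo (0 : ℝ) 1, 0 ≤ G' x := by
    intro x hx
    refine le_trans ?_ (hle x hx)
    have hx0 : 0 < x := hx.1
    have hx1 : 0 < 1 - x := by linarith [hx.2]
    positivity
  have h := ftc_KER (by norm_num : (0 : ℝ) ≤ 1) hcont hder hnn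
  calc ∫⁻ t in Ioo (0 : ℝ) 1, ENNReal.ofReal (t ^ (-(1 / 2) : ℝ) * (1 - t) ^ (-(3 / 4) : ℝ))
      ≤ ∫⁻ t in Ioo (0 : ℝ) 1, ENNReal.ofReal (G' t) := by
        refine setLIntegral_mono' measurableSet_Ioo ?_
        intro x hx
        exact ENNReal.ofReal_le_ofReal (hle x hx)
    _ = ENNReal.ofReal (G 1 - G 0) := h
    _ = ENNReal.ofReal (3 * Real.sqrt Real.pi) := by
        congr 1
        have h0 : ((0 : ℝ)) ^ ((1 / 4) : ℝ) = 0 := Real.zero_rpow (by norm_num)
        have hG1 : G 1 = 3 * c + 3 / (2 * c) * (Real.pi / 2 / 2) := by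
          have e1 : (2 * (1 : ℝ) - 1) = 1 := by norm_num
          show 3 * c * Real.sqrt 1 +
            3 / (2 * c) * (Real.sqrt 1 * Real.sqrt (1 - 1) + Real.arcsin (2 * 1 - 1) / 2) -
            4 * (Real.sqrt 1 * (1 - 1) ^ ((1 / 4) : ℝ)) = _
          rw [e1, Real.arcsin_one, sub_self, h0, Real.sqrt_zero, Real.sqrt_one]
          ring
        have hG0 : G 0 = 3 / (2 * c) * (-(Real.pi / 2) / 2) := by
          have e2 : (2 * (0 : ℝ) - 1) = -1 := by norm_num
          show 3 * c * Real.sqrt 0 +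
            3 / (2 * c) * (Real.sqrt 0 * Real.sqrt (1 - 0) + Real.arcsin (2 * 0 - 1) / 2) -
            4 * (Real.sqrt 0 * (1 - 0) ^ ((1 / 4) : ℝ)) = _
          rw [e2, Real.arcsin_neg_one, Real.sqrt_zero]
          ring
        rw [hG1, hG0, hc]
        have hp2 : Real.pi = Real.sqrt Real.pi * Real.sqrt Real.pi :=
          (Real.mul_self_sqrt Real.pi_pos.le).symm
        generalize Real.sqrt Real.pi = q at hp2 hpi
        rw [hp2]
        field_simp
        ring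

theorem hKER : StKER :=
  ⟨k1_KER, k2_KER, k3_KER, k4_KER⟩

end Helper71.P4
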